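import Pool.Agent.W683.BH.Fin

/-!
# MP_9e0ccb_an: the weak unit ball of a Hilbert space of large density
-/

set_option autoImplicit false

namespace Pool.Agent.Results.MP_9e0ccb_an.LargeDensity

open Pool.Agent.W683.BH

/-- Let `H` be a real Hilbert space with an orthonormal basis of cardinality at least `𝔠^{+m}`
for all `m` (for instance of cardinality at least `ℶ_ω`).  Then the space of continuous real
functions on the weak unit ball of `H` is not isomorphic to `C(L)` for any totally disconnected
compact Hausdorff space `L`. -/
theorem result (H : Type) [NormedAddCommGroup H] [InnerProductSpace ℝ H] (ι : Type)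
    (b : HilbertBasis ι ℝ H)
    (hι : ∀ m : ℕ, Order.succ^[m] Cardinal.continuum ≤ Cardinal.mk ι)
    (L : Type) [TopologicalSpace L] [CompactSpace L] [T2Space L] [TotallyDisconnectedSpace L] :
    IsEmpty (C(↥(toWeakSpace ℝ H '' Metric.closedBall (0 : H) 1), ℝ) ≃L[ℝ] C(L, ℝ)) := by
  have := ball_compact b
  exact no_iso' ι _ L (ball_U b) hι

end Pool.Agent.Results.MP_9e0ccb_an.LargeDensity
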